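import Pool.Agent.R798.Chain.Defs

/-!
# The six parameters are additive over disjoint unions
-/

set_option autoImplicit false
set_option linter.unusedSectionVars false

namespace Pool.Agent.R798.Chain

open Finset

variable {V W : Type} [Fintype V] [DecidableEq V] [Fintype W] [DecidableEq W]

/-- a property of sets of `V ⊕ W` which splits into two properties -/
def Splits (P : Finset (V ⊕ W) → Prop) (P₁ : Finset V → Prop) (P₂ : Finset W → Prop) : Prop :=
  ∀ S, P S ↔ P₁ S.toLeft ∧ P₂ S.toRight

theorem Splits.maximal {P : Finset (V ⊕ W) → Prop} {P₁ : Finset V → Prop} {P₂ : Finset W → Prop}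
    (h : Splits P P₁ P₂) : Splits (Maximal P) (Maximal P₁) (Maximal P₂) := by
  intro S
  constructor
  · rintro ⟨hS, hm⟩
    have hS' := (h S).1 hS
    refine ⟨⟨hS'.1, fun T hT hST => ?_⟩, ⟨hS'.2, fun T hT hST => ?_⟩⟩
    · have h1 : P (T.disjSum S.toRight) := (h _).2 (by simpa using ⟨hT, hS'.2⟩)
      have h2 := hm h1 (subset_disjSum.2 ⟨hST, subset_rfl⟩)
      have h3 := toLeft_subset_toLeft h2
      simpa using h3
    · have h1 : P (S.toLeft.disjSum T) := (h _).2 (by simpa using ⟨hS'.1, hT⟩)
      have h2 := hm h1 (subset_disjSum.2 ⟨subset_rfl, hST⟩)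
      have h3 := toRight_subset_toRight h2
      simpa using h3
  · rintro ⟨⟨h1, m1⟩, ⟨h2, m2⟩⟩
    refine ⟨(h S).2 ⟨h1, h2⟩, fun T hT hST => ?_⟩
    have hT' := (h T).1 hT
    have a1 := m1 hT'.1 (toLeft_subset_toLeft hST)
    have a2 := m2 hT'.2 (toRight_subset_toRight hST)
    have : T.toLeft.disjSum T.toRight ⊆ S := disjSum_subset.2 ⟨a1, a2⟩
    rwa [toLeft_disjSum_toRight] at this

theorem Splits.minimal {P : Finset (V ⊕ W) → Prop} {P₁ : Finset V → Prop} {P₂ : Finset W → Prop}
    (h : Splits P P₁ P₂) : Splits (Minimal P) (Minimal P₁) (Minimal P₂) := by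
  intro S
  constructor
  · rintro ⟨hS, hm⟩
    have hS' := (h S).1 hS
    refine ⟨⟨hS'.1, fun T hT hST => ?_⟩, ⟨hS'.2, fun T hT hST => ?_⟩⟩
    · have h1 : P (T.disjSum S.toRight) := (h _).2 (by simpa using ⟨hT, hS'.2⟩)
      have h2 := hm h1 (disjSum_subset.2 ⟨hST, subset_rfl⟩)
      have h3 := toLeft_subset_toLeft h2
      simpa using h3
    · have h1 : P (S.toLeft.disjSum T) := (h _).2 (by simpa using ⟨hS'.1, hT⟩)
      have h2 := hm h1 (disjSum_subset.2 ⟨subset_rfl, hST⟩)
      have h3 := toRight_subset_toRight h2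
      simpa using h3
  · rintro ⟨⟨h1, m1⟩, ⟨h2, m2⟩⟩
    refine ⟨(h S).2 ⟨h1, h2⟩, fun T hT hST => ?_⟩
    have hT' := (h T).1 hT
    have a1 := m1 hT'.1 (toLeft_subset_toLeft hST)
    have a2 := m2 hT'.2 (toRight_subset_toRight hST)
    have : S ⊆ T.toLeft.disjSum T.toRight := subset_disjSum.2 ⟨a1, a2⟩
    rwa [toLeft_disjSum_toRight] at this

theorem Splits.minSize {P : Finset (V ⊕ W) → Prop} {P₁ : Finset V → Prop} {P₂ : Finset W → Prop}
    (h : Splits P P₁ P₂) (e1 : ∃ S, P₁ S) (e2 : ∃ S, P₂ S) :
    minSize P = minSize P₁ + minSize P₂ := by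
  obtain ⟨A, hA, cA⟩ := exists_minSize e1
  obtain ⟨B, hB, cB⟩ := exists_minSize e2
  have hAB : P (A.disjSum B) := (h _).2 (by simpa using ⟨hA, hB⟩)
  apply le_antisymm
  · have := minSize_le hAB
    rw [card_disjSum, cA, cB] at this
    exact this
  · obtain ⟨S, hS, cS⟩ := exists_minSize ⟨_, hAB⟩
    have hS' := (h S).1 hS
    have h1 := minSize_le hS'.1
    have h2 := minSize_le hS'.2
    have h3 : S.toLeft.card + S.toRight.card = S.card := card_toLeft_add_card_toRight
    omega

theorem Splits.maxSize {P : Finset (V ⊕ W) → Prop} {P₁ : Finset V → Prop} {P₂ : Finset W → Prop}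
    (h : Splits P P₁ P₂) (e1 : ∃ S, P₁ S) (e2 : ∃ S, P₂ S) :
    maxSize P = maxSize P₁ + maxSize P₂ := by
  obtain ⟨A, hA, cA⟩ := exists_maxSize e1
  obtain ⟨B, hB, cB⟩ := exists_maxSize e2
  have hAB : P (A.disjSum B) := (h _).2 (by simpa using ⟨hA, hB⟩)
  apply le_antisymm
  · obtain ⟨S, hS, cS⟩ := exists_maxSize ⟨_, hAB⟩
    have hS' := (h S).1 hS
    have h1 := le_maxSize hS'.1
    have h2 := le_maxSize hS'.2
    have h3 : S.toLeft.card + S.toRight.card = S.card := card_toLeft_add_card_toRight
    omega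
  · have := le_maxSize hAB
    rw [card_disjSum, cA, cB] at this
    exact this

theorem inNbhd_inl (G : SimpleGraph V) (H : SimpleGraph W) (S : Finset (V ⊕ W)) (w : V) :
    InNbhd (G ⊕g H) S (Sum.inl w) ↔ InNbhd G S.toLeft w := by
  constructor
  · rintro ⟨v, hv, h⟩
    cases v with
    | inl v => exact ⟨v, by simpa using hv, by simpa using h⟩
    | inr v => simp at h
  · rintro ⟨v, hv, h⟩
    exact ⟨Sum.inl v, by simpa using hv, by simpa using h⟩

theorem inNbhd_inr (G : SimpleGraph V) (H : SimpleGraph W) (S : Finset (V ⊕ W)) (w : W) :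
    InNbhd (G ⊕g H) S (Sum.inr w) ↔ InNbhd H S.toRight w := by
  constructor
  · rintro ⟨v, hv, h⟩
    cases v with
    | inr v => exact ⟨v, by simpa using hv, by simpa using h⟩
    | inl v => simp at h
  · rintro ⟨v, hv, h⟩
    exact ⟨Sum.inr v, by simpa using hv, by simpa using h⟩

theorem splits_dominating (G : SimpleGraph V) (H : SimpleGraph W) :
    Splits (Dominating (G ⊕g H)) (Dominating G) (Dominating H) := by
  intro S
  constructor
  · intro h
    exact ⟨fun w => (inNbhd_inl G H S w).1 (h _), fun w => (inNbhd_inr G H S w).1 (h _)⟩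
  · rintro ⟨h1, h2⟩ w
    cases w with
    | inl w => exact (inNbhd_inl G H S w).2 (h1 w)
    | inr w => exact (inNbhd_inr G H S w).2 (h2 w)

theorem splits_indep (G : SimpleGraph V) (H : SimpleGraph W) :
    Splits (Indep (G ⊕g H)) (Indep G) (Indep H) := by
  intro S
  constructor
  · intro h
    refine ⟨fun u hu v hv huv => ?_, fun u hu v hv huv => ?_⟩
    · exact h (Sum.inl u) (by simpa using hu) (Sum.inl v) (by simpa using hv) (by simpa using huv)
    · exact h (Sum.inr u) (by simpa using hu) (Sum.inr v) (by simpa using hv) (by simpa using huv)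
  · rintro ⟨h1, h2⟩ u hu v hv huv
    cases u with
    | inl u =>
      cases v with
      | inl v => exact h1 u (by simpa using hu) v (by simpa using hv) (by simpa using huv)
      | inr v => simp at huv
    | inr u =>
      cases v with
      | inr v => exact h2 u (by simpa using hu) v (by simpa using hv) (by simpa using huv)
      | inl v => simp at huv

theorem toLeft_erase_inl (S : Finset (V ⊕ W)) (v : V) :
    (S.erase (Sum.inl v)).toLeft = S.toLeft.erase v := by
  ext x; simp

theorem toRight_erase_inr (S : Finset (V ⊕ W)) (v : W) :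
    (S.erase (Sum.inr v)).toRight = S.toRight.erase v := by
  ext x; simp

theorem splits_irredundant (G : SimpleGraph V) (H : SimpleGraph W) :
    Splits (Irredundant (G ⊕g H)) (Irredundant G) (Irredundant H) := by
  intro S
  constructor
  · intro h
    refine ⟨fun v hv => ?_, fun v hv => ?_⟩
    · obtain ⟨w, hw, hn⟩ := h (Sum.inl v) (by simpa using hv)
      cases w with
      | inl w =>
        rw [inNbhd_inl, toLeft_erase_inl] at hn
        exact ⟨w, by simpa using hw, hn⟩
      | inr w => simp at hw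
    · obtain ⟨w, hw, hn⟩ := h (Sum.inr v) (by simpa using hv)
      cases w with
      | inr w =>
        rw [inNbhd_inr, toRight_erase_inr] at hn
        exact ⟨w, by simpa using hw, hn⟩
      | inl w => simp at hw
  · rintro ⟨h1, h2⟩ v hv
    cases v with
    | inl v =>
      obtain ⟨w, hw, hn⟩ := h1 v (by simpa using hv)
      refine ⟨Sum.inl w, by simpa using hw, ?_⟩
      rw [inNbhd_inl, toLeft_erase_inl]
      exact hn
    | inr v =>
      obtain ⟨w, hw, hn⟩ := h2 v (by simpa using hv)
      refine ⟨Sum.inr w, by simpa using hw, ?_⟩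
      rw [inNbhd_inr, toRight_erase_inr]
      exact hn

section

variable (G : SimpleGraph V) (H : SimpleGraph W)

theorem ir_sum : ir (G ⊕g H) = ir G + ir H :=
  (splits_irredundant G H).maximal.minSize (exists_maxIrr G) (exists_maxIrr H)

theorem gamma_sum : gamma (G ⊕g H) = gamma G + gamma H :=
  (splits_dominating G H).minSize ⟨_, dominating_univ G⟩ ⟨_, dominating_univ H⟩

theorem idom_sum : idom (G ⊕g H) = idom G + idom H :=
  (splits_indep G H).maximal.minSize (exists_maxIndep G) (exists_maxIndep H)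

theorem beta_sum : beta (G ⊕g H) = beta G + beta H :=
  (splits_indep G H).maxSize ⟨_, indep_empty G⟩ ⟨_, indep_empty H⟩

theorem Gam_sum : Gam (G ⊕g H) = Gam G + Gam H :=
  (splits_dominating G H).minimal.maxSize (exists_minDom G) (exists_minDom H)

theorem IR_sum : IR (G ⊕g H) = IR G + IR H :=
  (splits_irredundant G H).maxSize ⟨_, irredundant_empty G⟩ ⟨_, irredundant_empty H⟩

end

/-- every vertex has exactly three neighbours -/
def Cubic (G : SimpleGraph V) : Prop := ∀ v, (G.neighborSet v).ncard = 3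

theorem cubic_sum {G : SimpleGraph V} {H : SimpleGraph W} (hG : Cubic G) (hH : Cubic H) :
    Cubic (G ⊕g H) := by
  intro v
  cases v with
  | inl v =>
    have : (G ⊕g H).neighborSet (Sum.inl v) = Sum.inl '' G.neighborSet v := by
      ext x
      cases x <;> simp
    rw [this, Set.ncard_image_of_injective _ Sum.inl_injective]
    exact hG v
  | inr v =>
    have : (G ⊕g H).neighborSet (Sum.inr v) = Sum.inr '' H.neighborSet v := by
      ext x
      cases x <;> simp
    rw [this, Set.ncard_image_of_injective _ Sum.inr_injective]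
    exact hH v

end Pool.Agent.R798.Chain
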