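import Pool.Agent.R798.Chain.Search
import Pool.Agent.R798.Chain.Sum

/-!
# Certificates
-/

set_option autoImplicit false
set_option linter.unusedSectionVars false

namespace Pool.Agent.R798.Chain

variable {n : ℕ} {N : List ℕ}

/-- the set of vertices given by a bit mask -/
def ofMask (n I : ℕ) : Finset (Fin n) := Finset.univ.filter (fun i => I.testBit i = true)

theorem mem_ofMask {I : ℕ} {i : Fin n} : i ∈ ofMask n I ↔ I.testBit i = true := by
  simp [ofMask]

theorem eq_false_of_not {b : Bool} (h : (!b) = true) : b = false := by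
  cases b
  · rfl
  · simp at h

theorem irr_of_mask (hg : Good n N) {I : ℕ} (h : tIrr N I = false) :
    Irredundant (ofTable n N) (ofMask n I) := by
  intro v hv
  rw [mem_ofMask] at hv
  by_contra hcon
  have : tIrr N I = true := by
    apply anyV_of (j := v) (by rw [hg.length]; exact v.2)
    rw [zero_add, Bool.and_eq_true]
    refine ⟨hv, ?_⟩
    rw [Bool.not_eq_true', Bool.eq_false_iff]
    intro ha
    obtain ⟨w, hw, hb⟩ := anyV_spec ha
    rw [hg.length] at hw
    have hb' : N.getD w 0 &&& I = 2 ^ (v : ℕ) := Nat.eq_of_beq_eq_true hb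
    apply hcon
    have hbit : (N.getD w 0 &&& I).testBit v = true := by
      rw [hb', Nat.testBit_two_pow]
      simp
    rw [Nat.testBit_and, Bool.and_eq_true] at hbit
    refine ⟨⟨w, hw⟩, (hg.nb v ⟨w, hw⟩).1 (by rw [hg.symm v v.2 w hw]; exact hbit.1), ?_⟩
    rintro ⟨u, hu, huw⟩
    rw [Finset.mem_erase, mem_ofMask] at hu
    have h1 : (N.getD w 0 &&& I).testBit u = true := by
      have h2 := (hg.nb u ⟨w, hw⟩).2 huw
      rw [hg.symm u u.2 w hw] at h2
      rw [Nat.testBit_and, h2, hu.2]
      rfl
    rw [hb', Nat.testBit_two_pow, decide_eq_true_eq] at h1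
    exact hu.1 (Fin.ext h1.symm)
  rw [h] at this
  exact absurd this (by simp)

theorem ind_of_mask (hg : Good n N) {I : ℕ} (h : tInd N I = false) :
    Indep (ofTable n N) (ofMask n I) := by
  intro u hu v hv huv
  rw [mem_ofMask] at hu hv
  have : tInd N I = true := by
    apply anyV_of (j := u) (by rw [hg.length]; exact u.2)
    rw [zero_add, Bool.and_eq_true]
    refine ⟨hu, ?_⟩
    rw [Bool.not_eq_true', Bool.eq_false_iff]
    intro ha
    have hb' : N.getD u 0 &&& I = 2 ^ (u : ℕ) := Nat.eq_of_beq_eq_true ha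
    have h1 : (N.getD u 0 &&& I).testBit v = true := by
      rw [Nat.testBit_and, (hg.nb u v).2 (Or.inr huv), hv]
      rfl
    rw [hb', Nat.testBit_two_pow, decide_eq_true_eq] at h1
    exact huv.ne (Fin.ext h1)
  rw [h] at this
  exact absurd this (by simp)

/-- some vertex is not dominated by the mask -/
def nDom (N : List ℕ) (I : ℕ) : Bool := anyV (fun _ m => Nat.beq (Nat.land m I) 0) 0 N

theorem dom_of_mask (hg : Good n N) {I : ℕ} (h : nDom N I = false) :
    Dominating (ofTable n N) (ofMask n I) := by
  intro w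
  by_contra hcon
  have : nDom N I = true := by
    apply anyV_of (j := w) (by rw [hg.length]; exact w.2)
    rw [Nat.beq_eq]
    apply Nat.eq_of_testBit_eq
    intro i
    change (N.getD w 0 &&& I).testBit i = _
    rw [Nat.zero_testBit, Nat.testBit_and]
    by_contra hb
    rw [Bool.not_eq_false, Bool.and_eq_true] at hb
    have hi : i < n := lt_of_testBit hg w.2 hb.1
    apply hcon
    refine ⟨⟨i, hi⟩, mem_ofMask.2 hb.2, (hg.nb ⟨i, hi⟩ w).1 ?_⟩
    rw [hg.symm i hi w w.2]
    exact hb.1
  rw [h] at this
  exact absurd this (by simp)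

/-- a maximal irredundant set given by a mask -/
theorem maxIrr_of_mask (hg : Good n N) {I : ℕ} (h : tIrr N I = false)
    (hall : ∀ v < n, I.testBit v = false → tIrr N (Nat.lor I (Nat.pow 2 v)) = true) :
    Maximal (Irredundant (ofTable n N)) (ofMask n I) := by
  refine ⟨irr_of_mask hg h, fun T hT hST v hv => ?_⟩
  rw [mem_ofMask]
  by_contra hb
  rw [Bool.not_eq_true] at hb
  have h1 := hall v v.2 hb
  refine tIrr_sound (O := 0) hg ⟨fun i hi => ?_, fun i hi => by simp at hi⟩ h1 hT
  rw [testBit_lor_pow, Bool.or_eq_true, decide_eq_true_eq] at hi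
  rcases hi with hi | hi
  · exact hST (mem_ofMask.2 hi)
  · rw [← Fin.ext hi]
    exact hv

theorem maxIndep_of_mask (hg : Good n N) {I : ℕ} (h : tInd N I = false) (hd : nDom N I = false) :
    Maximal (Indep (ofTable n N)) (ofMask n I) := by
  refine ⟨ind_of_mask hg h, fun T hT hST v hv => ?_⟩
  obtain ⟨u, hu, huv⟩ := dom_of_mask hg hd v
  rcases huv with rfl | huv
  · exact hu
  · exact absurd huv (hT u (hST hu) v hv)

theorem minDom_of_mask (hg : Good n N) {I : ℕ} (h : tIrr N I = false) (hd : nDom N I = false) :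
    Minimal (Dominating (ofTable n N)) (ofMask n I) :=
  minimal_of_irredundant (dom_of_mask hg hd) (irr_of_mask hg h)

/-- the Boolean test for a good table -/
def goodB (n : ℕ) (N : List ℕ) : Bool :=
  Nat.beq N.length n && N.all (fun m => Nat.blt m (2 ^ n)) &&
    (List.range n).all (fun u => (N.getD u 0).testBit u &&
      (List.range n).all (fun v => (N.getD u 0).testBit v == (N.getD v 0).testBit u))

theorem good_of (h : goodB n N = true) : Good n N := by
  unfold goodB at h
  rw [Bool.and_eq_true, Bool.and_eq_true, List.all_eq_true, List.all_eq_true] at h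
  obtain ⟨⟨h1, h2⟩, h3⟩ := h
  refine ⟨Nat.eq_of_beq_eq_true h1, fun m hm => ?_, fun u hu => ?_, fun u hu v hv => ?_⟩
  · have := h2 m hm
    rw [Nat.blt_eq] at this
    exact this
  · have := h3 u (List.mem_range.2 hu)
    rw [Bool.and_eq_true] at this
    exact this.1
  · have := h3 u (List.mem_range.2 hu)
    rw [Bool.and_eq_true, List.all_eq_true] at this
    have := this.2 v (List.mem_range.2 hv)
    simpa using this

theorem cubic_of {n : ℕ} {N : List ℕ}
    (h : ∀ v : Fin n, (Finset.univ.filter (fun u : Fin n =>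
      v ≠ u ∧ ((N.getD v 0).testBit u = true ∧ (N.getD u 0).testBit v = true))).card = 3) :
    Cubic (ofTable n N) := by
  intro v
  rw [← h v, ← Set.ncard_coe_finset]
  congr 1
  ext u
  simp only [Finset.coe_filter, Finset.mem_univ, true_and, Set.mem_ofPred_eq,
    SimpleGraph.mem_neighborSet]
  exact Iff.rfl

end Pool.Agent.R798.Chain
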