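import Pool.Agent.R798.Chain.Cert

/-!
# Four cubic graphs
-/

set_option autoImplicit false
set_option maxRecDepth 100000

namespace Pool.Agent.R798.Chain

/-! ## The graph `A` on 16 vertices: `ir < γ` and `i < β₀` -/

/-- closed neighbourhoods of `A` -/
def tA : List ℕ := [25601, 8230, 33030, 2600, 5200, 4138, 2384, 9088, 452, 17032, 33809, 6216,
  6192, 8323, 49665, 50180]

theorem goodA : Good 16 tA := good_of (by decide +kernel)

theorem cubicA : Cubic (ofTable 16 tA) := cubic_of (by decide +kernel)

/-- an order of the vertices of `A` -/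
def oA : List (Fin 16) := [14, 0, 9, 15, 10, 13, 3, 7, 2, 4, 1, 5, 11, 8, 6, 12]

theorem ir_lt_gamma_A : ir (ofTable 16 tA) < gamma (ofTable 16 tA) := by
  have h1 : ir (ofTable 16 tA) ≤ (ofMask 16 120).card :=
    minSize_le (maxIrr_of_mask goodA (by decide +kernel) (by decide +kernel))
  have h2 : (ofMask 16 120).card = 4 := by decide +kernel
  have h3 : 4 < gamma (ofTable 16 tA) := by
    refine lt_minSize ⟨_, dominating_univ _⟩ fun S hS => ?_
    by_contra hc
    refine search_top (P := fun S => Dominating (ofTable 16 tA) S ∧ S.card ≤ 4)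
      (prune := fun _ O c _ => Nat.blt 4 c || tDom tA O) ?_ oA (by decide +kernel)
      (by decide +kernel) (by decide +kernel) S ⟨hS, by omega⟩
    rintro S I O c r hA hc1 _ hp ⟨hd, hc2⟩
    rw [Bool.or_eq_true, Nat.blt_eq] at hp
    rcases hp with hp | hp
    · omega
    · exact tDom_sound goodA hA hp hd
  omega

theorem idom_lt_beta_A : idom (ofTable 16 tA) < beta (ofTable 16 tA) := by
  have h1 : idom (ofTable 16 tA) ≤ (ofMask 16 157).card :=
    minSize_le (maxIndep_of_mask goodA (by decide +kernel) (by decide +kernel))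
  have h2 : (ofMask 16 157).card = 5 := by decide +kernel
  have h3 : (ofMask 16 37067).card ≤ beta (ofTable 16 tA) :=
    le_maxSize (ind_of_mask goodA (by decide +kernel))
  have h4 : (ofMask 16 37067).card = 7 := by decide +kernel
  omega

/-! ## The graph `B` on 18 vertices: `Γ < IR` -/

/-- closed neighbourhoods of `B` -/
def tB : List ℕ := [6273, 66306, 34308, 37128, 16560, 147504, 140352, 2193, 4362, 66054, 33860,
  67713, 4361, 155712, 24624, 33804, 68098, 139360]

theorem goodB' : Good 18 tB := good_of (by decide +kernel)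

theorem cubicB : Cubic (ofTable 18 tB) := cubic_of (by decide +kernel)

/-- an order of the vertices of `B` -/
def oB : List (Fin 18) := [9, 1, 2, 16, 8, 10, 15, 11, 3, 12, 6, 0, 7, 13, 17, 4, 14, 5]

theorem Gam_lt_IR_B : Gam (ofTable 18 tB) < IR (ofTable 18 tB) := by
  have h1 : (ofMask 18 139971).card ≤ IR (ofTable 18 tB) :=
    le_maxSize (irr_of_mask goodB' (by decide +kernel))
  have h2 : (ofMask 18 139971).card = 7 := by decide +kernel
  have h3 : Gam (ofTable 18 tB) < 7 := by
    refine maxSize_lt (exists_minDom _) fun S hS => ?_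
    by_contra hc
    refine search_top
      (P := fun S => Dominating (ofTable 18 tB) S ∧ Irredundant (ofTable 18 tB) S ∧ 7 ≤ S.card)
      (prune := fun I O c r => Nat.blt (c + r) 7 || (tDom tB O || tIrr tB I)) ?_ oB
      (by decide +kernel) (by decide +kernel) (by decide +kernel) S
      ⟨hS.1, irredundant_of_minimal hS, by omega⟩
    rintro S I O c r hA _ hc1 hp ⟨hd, hi, hc2⟩
    rw [Bool.or_eq_true, Nat.blt_eq, Bool.or_eq_true] at hp
    rcases hp with hp | hp | hp
    · omega
    · exact tDom_sound goodB' hA hp hd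
    · exact tIrr_sound goodB' hA hp hi
  omega

/-! ## The complete bipartite graph `K_{3,3}`: `γ < i` -/

/-- closed neighbourhoods of `K_{3,3}` -/
def tK : List ℕ := [57, 58, 60, 15, 23, 39]

theorem goodK : Good 6 tK := good_of (by decide +kernel)

theorem cubicK : Cubic (ofTable 6 tK) := cubic_of (by decide +kernel)

/-- an order of the vertices -/
def o6 : List (Fin 6) := [0, 1, 2, 3, 4, 5]

theorem gamma_lt_idom_K : gamma (ofTable 6 tK) < idom (ofTable 6 tK) := by
  have h1 : gamma (ofTable 6 tK) ≤ (ofMask 6 9).card :=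
    minSize_le (dom_of_mask goodK (by decide +kernel))
  have h2 : (ofMask 6 9).card = 2 := by decide +kernel
  have h3 : 2 < idom (ofTable 6 tK) := by
    refine lt_minSize (exists_maxIndep _) fun S hS => ?_
    by_contra hc
    refine search_top
      (P := fun S => Dominating (ofTable 6 tK) S ∧ Indep (ofTable 6 tK) S ∧ S.card ≤ 2)
      (prune := fun I O c _ => Nat.blt 2 c || (tDom tK O || tInd tK I)) ?_ o6
      (by decide +kernel) (by decide +kernel) (by decide +kernel) S
      ⟨dominating_of_maximal hS, hS.1, by omega⟩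
    rintro S I O c r hA hc1 _ hp ⟨hd, hi, hc2⟩
    rw [Bool.or_eq_true, Nat.blt_eq, Bool.or_eq_true] at hp
    rcases hp with hp | hp | hp
    · omega
    · exact tDom_sound goodK hA hp hd
    · exact tInd_sound goodK hA hp hi
  omega

/-! ## The prism `K_3 □ K_2`: `β₀ < Γ` -/

/-- closed neighbourhoods of the prism -/
def tP : List ℕ := [15, 23, 39, 57, 58, 60]

theorem goodP : Good 6 tP := good_of (by decide +kernel)

theorem cubicP : Cubic (ofTable 6 tP) := cubic_of (by decide +kernel)

theorem beta_lt_Gam_P : beta (ofTable 6 tP) < Gam (ofTable 6 tP) := by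
  have h1 : (ofMask 6 7).card ≤ Gam (ofTable 6 tP) :=
    le_maxSize (minDom_of_mask goodP (by decide +kernel) (by decide +kernel))
  have h2 : (ofMask 6 7).card = 3 := by decide +kernel
  have h3 : beta (ofTable 6 tP) < 3 := by
    refine maxSize_lt ⟨_, indep_empty _⟩ fun S hS => ?_
    by_contra hc
    refine search_top (P := fun S => Indep (ofTable 6 tP) S ∧ 3 ≤ S.card)
      (prune := fun I _ c r => Nat.blt (c + r) 3 || tInd tP I) ?_ o6
      (by decide +kernel) (by decide +kernel) (by decide +kernel) S ⟨hS, by omega⟩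
    rintro S I O c r hA _ hc1 hp ⟨hi, hc2⟩
    rw [Bool.or_eq_true, Nat.blt_eq] at hp
    rcases hp with hp | hp
    · omega
    · exact tInd_sound goodP hA hp hi
  omega

end Pool.Agent.R798.Chain
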