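import Mathlib

/-!
# The domination chain: definitions and general facts
-/

set_option autoImplicit false
set_option linter.unusedSectionVars false

namespace Pool.Agent.R798.Chain

variable {V : Type} [Fintype V] [DecidableEq V]

/-- `w` belongs to the closed neighbourhood of the set `S` -/
def InNbhd (G : SimpleGraph V) (S : Finset V) (w : V) : Prop := ∃ v ∈ S, v = w ∨ G.Adj v w

/-- `S` is a dominating set: its closed neighbourhood is everything -/
def Dominating (G : SimpleGraph V) (S : Finset V) : Prop := ∀ w, InNbhd G S w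

/-- no two vertices of `S` are adjacent -/
def Indep (G : SimpleGraph V) (S : Finset V) : Prop := ∀ u ∈ S, ∀ v ∈ S, ¬ G.Adj u v

/-- every vertex `v` of `S` has a private neighbour: a vertex of the closed neighbourhood of `v`
which is not in the closed neighbourhood of `S \ {v}` -/
def Irredundant (G : SimpleGraph V) (S : Finset V) : Prop :=
  ∀ v ∈ S, ∃ w, (v = w ∨ G.Adj v w) ∧ ¬ InNbhd G (S.erase v) w

/-- the least size of a set with the property `P` -/
noncomputable def minSize (P : Finset V → Prop) : ℕ := sInf {k | ∃ S, P S ∧ S.card = k}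

/-- the largest size of a set with the property `P` -/
noncomputable def maxSize (P : Finset V → Prop) : ℕ := sSup {k | ∃ S, P S ∧ S.card = k}

/-- the lower irredundance number `ir`: least size of a maximal irredundant set -/
noncomputable def ir (G : SimpleGraph V) : ℕ := minSize (Maximal (Irredundant G))

/-- the domination number `γ`: least size of a dominating set -/
noncomputable def gamma (G : SimpleGraph V) : ℕ := minSize (Dominating G)

/-- the independent domination number `i`: least size of a maximal independent set -/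
noncomputable def idom (G : SimpleGraph V) : ℕ := minSize (Maximal (Indep G))

/-- the independence number `β₀`: largest size of an independent set -/
noncomputable def beta (G : SimpleGraph V) : ℕ := maxSize (Indep G)

/-- the upper domination number `Γ`: largest size of a minimal dominating set -/
noncomputable def Gam (G : SimpleGraph V) : ℕ := maxSize (Minimal (Dominating G))

/-- the upper irredundance number `IR`: largest size of an irredundant set -/
noncomputable def IR (G : SimpleGraph V) : ℕ := maxSize (Irredundant G)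

/-! ## Sizes -/

theorem minSize_le {P : Finset V → Prop} {S : Finset V} (h : P S) : minSize P ≤ S.card :=
  Nat.sInf_le ⟨S, h, rfl⟩

theorem exists_minSize {P : Finset V → Prop} (h : ∃ S, P S) : ∃ S, P S ∧ S.card = minSize P := by
  obtain ⟨S, hS⟩ := h
  exact Nat.sInf_mem (s := {k | ∃ S, P S ∧ S.card = k}) ⟨_, S, hS, rfl⟩

theorem bdd (P : Finset V → Prop) : BddAbove {k | ∃ S, P S ∧ S.card = k} := by
  refine ⟨Fintype.card V, ?_⟩
  rintro k ⟨S, _, rfl⟩
  exact Finset.card_le_univ S

theorem le_maxSize {P : Finset V → Prop} {S : Finset V} (h : P S) : S.card ≤ maxSize P :=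
  le_csSup (bdd P) ⟨S, h, rfl⟩

theorem exists_maxSize {P : Finset V → Prop} (h : ∃ S, P S) : ∃ S, P S ∧ S.card = maxSize P := by
  obtain ⟨S, hS⟩ := h
  exact Nat.sSup_mem (s := {k | ∃ S, P S ∧ S.card = k}) ⟨_, S, hS, rfl⟩ (bdd P)

theorem lt_minSize {P : Finset V → Prop} {k : ℕ} (hne : ∃ S, P S) (h : ∀ S, P S → k < S.card) :
    k < minSize P := by
  obtain ⟨S, hS, hc⟩ := exists_minSize hne
  rw [← hc]
  exact h S hS

theorem maxSize_lt {P : Finset V → Prop} {k : ℕ} (hne : ∃ S, P S) (h : ∀ S, P S → S.card < k) :
    maxSize P < k := by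
  obtain ⟨S, hS, hc⟩ := exists_maxSize hne
  rw [← hc]
  exact h S hS

/-! ## The chain of inequalities -/

theorem exists_maximal (P : Finset V → Prop) {S : Finset V} (h : P S) :
    ∃ T, S ⊆ T ∧ Maximal P T := by
  obtain ⟨T, hT, hm⟩ := (Set.toFinite {T | P T}).exists_le_maximal (show S ∈ {T | P T} from h)
  exact ⟨T, hT, hm⟩

theorem exists_minimal (P : Finset V → Prop) {S : Finset V} (h : P S) :
    ∃ T, T ⊆ S ∧ Minimal P T := by
  obtain ⟨T, hT, hm⟩ := (Set.toFinite {T | P T}).exists_le_minimal (show S ∈ {T | P T} from h)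
  exact ⟨T, hT, hm⟩

theorem InNbhd.mono {G : SimpleGraph V} {S T : Finset V} (h : S ⊆ T) {w : V}
    (hw : InNbhd G S w) : InNbhd G T w := by
  obtain ⟨v, hv, h1⟩ := hw
  exact ⟨v, h hv, h1⟩

theorem dominating_univ (G : SimpleGraph V) : Dominating G Finset.univ :=
  fun w => ⟨w, Finset.mem_univ w, Or.inl rfl⟩

theorem indep_empty (G : SimpleGraph V) : Indep G ∅ := fun u hu => by simp at hu

theorem irredundant_empty (G : SimpleGraph V) : Irredundant G ∅ := fun u hu => by simp at hu

/-- a maximal independent set is dominating -/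
theorem dominating_of_maximal {G : SimpleGraph V} {S : Finset V} (h : Maximal (Indep G) S) :
    Dominating G S := by
  intro w
  by_contra hw
  have hwS : w ∉ S := fun hwS => hw ⟨w, hwS, Or.inl rfl⟩
  have hin : Indep G (insert w S) := by
    intro u hu v hv huv
    rw [Finset.mem_insert] at hu hv
    rcases hu with rfl | hu
    · rcases hv with rfl | hv
      · exact G.irrefl huv
      · exact hw ⟨v, hv, Or.inr huv.symm⟩
    · rcases hv with rfl | hv
      · exact hw ⟨u, hu, Or.inr huv⟩
      · exact h.1 u hu v hv huv
  exact hwS (h.2 hin (Finset.subset_insert w S) (Finset.mem_insert_self w S))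

/-- a minimal dominating set is irredundant -/
theorem irredundant_of_minimal {G : SimpleGraph V} {S : Finset V}
    (h : Minimal (Dominating G) S) : Irredundant G S := by
  intro v hv
  by_contra hcon
  push Not at hcon
  have hd : Dominating G (S.erase v) := by
    intro w
    obtain ⟨u, hu, huw⟩ := h.1 w
    by_cases huv : u = v
    · subst huv
      exact hcon w huw
    · exact ⟨u, Finset.mem_erase.2 ⟨huv, hu⟩, huw⟩
  have := h.2 hd (Finset.erase_subset v S) hv
  exact (Finset.notMem_erase v S) this

/-- a dominating irredundant set is a minimal dominating set -/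
theorem minimal_of_irredundant {G : SimpleGraph V} {S : Finset V} (hd : Dominating G S)
    (hi : Irredundant G S) : Minimal (Dominating G) S := by
  refine ⟨hd, fun T hT hTS v hv => ?_⟩
  by_contra hvT
  obtain ⟨w, _, hw⟩ := hi v hv
  obtain ⟨u, hu, huw⟩ := hT w
  exact hw ⟨u, Finset.mem_erase.2 ⟨fun e => hvT (e ▸ hu), hTS hu⟩, huw⟩

/-- a minimal dominating set is maximal irredundant -/
theorem maximal_of_minimal {G : SimpleGraph V} {S : Finset V}
    (h : Minimal (Dominating G) S) : Maximal (Irredundant G) S := by
  refine ⟨irredundant_of_minimal h, fun T hT hST v hv => ?_⟩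
  by_contra hvS
  obtain ⟨w, _, hw⟩ := hT v hv
  refine hw (InNbhd.mono (fun u hu => Finset.mem_erase.2 ⟨?_, hST hu⟩) (h.1 w))
  rintro rfl
  exact hvS hu

/-- a maximal independent set is irredundant, and even a minimal dominating set -/
theorem minimal_of_maximal {G : SimpleGraph V} {S : Finset V} (h : Maximal (Indep G) S) :
    Minimal (Dominating G) S := by
  refine minimal_of_irredundant (dominating_of_maximal h) fun v hv => ⟨v, Or.inl rfl, ?_⟩
  rintro ⟨u, hu, huv⟩
  rw [Finset.mem_erase] at hu
  rcases huv with huv | huv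
  · exact hu.1 huv
  · exact h.1 u hu.2 v hv huv

theorem exists_maxIrr (G : SimpleGraph V) : ∃ S, Maximal (Irredundant G) S := by
  obtain ⟨T, _, h⟩ := exists_maximal (Irredundant G) (irredundant_empty G)
  exact ⟨T, h⟩

theorem exists_maxIndep (G : SimpleGraph V) : ∃ S, Maximal (Indep G) S := by
  obtain ⟨T, _, h⟩ := exists_maximal (Indep G) (indep_empty G)
  exact ⟨T, h⟩

theorem exists_minDom (G : SimpleGraph V) : ∃ S, Minimal (Dominating G) S := by
  obtain ⟨T, _, h⟩ := exists_minimal (Dominating G) (dominating_univ G)
  exact ⟨T, h⟩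

theorem ir_le_gamma (G : SimpleGraph V) : ir G ≤ gamma G := by
  obtain ⟨S, hS, hc⟩ := exists_minSize (P := Dominating G) ⟨_, dominating_univ G⟩
  obtain ⟨T, hT, hm⟩ := exists_minimal (Dominating G) hS
  have h1 : ir G ≤ T.card := minSize_le (maximal_of_minimal hm)
  have h2 := Finset.card_le_card hT
  unfold gamma
  omega

theorem gamma_le_idom (G : SimpleGraph V) : gamma G ≤ idom G := by
  obtain ⟨S, hS, hc⟩ := exists_minSize (exists_maxIndep G)
  unfold idom
  rw [← hc]
  exact minSize_le (dominating_of_maximal hS)

theorem idom_le_beta (G : SimpleGraph V) : idom G ≤ beta G := by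
  obtain ⟨S, hS⟩ := exists_maxIndep G
  exact (minSize_le hS).trans (le_maxSize hS.1)

theorem beta_le_Gam (G : SimpleGraph V) : beta G ≤ Gam G := by
  obtain ⟨S, hS, hc⟩ := exists_maxSize (P := Indep G) ⟨_, indep_empty G⟩
  obtain ⟨T, hT, hm⟩ := exists_maximal (Indep G) hS
  have h1 : T.card ≤ Gam G := le_maxSize (minimal_of_maximal hm)
  have h2 := Finset.card_le_card hT
  unfold beta
  omega

theorem Gam_le_IR (G : SimpleGraph V) : Gam G ≤ IR G := by
  obtain ⟨S, hS, hc⟩ := exists_maxSize (exists_minDom G)
  unfold Gam
  rw [← hc]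
  exact le_maxSize (irredundant_of_minimal hS)

end Pool.Agent.R798.Chain
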