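import Pool.Agent.R798.Chain.Defs

/-!
# Exhaustive search over the subsets of the vertex set of a small graph
-/

set_option autoImplicit false
set_option linter.unusedSectionVars false

namespace Pool.Agent.R798.Chain

/-- the graph on `Fin n` given by a table of closed neighbourhoods (bit masks) -/
def ofTable (n : ℕ) (N : List ℕ) : SimpleGraph (Fin n) where
  Adj u v := u ≠ v ∧ ((N.getD u 0).testBit v = true ∧ (N.getD v 0).testBit u = true)
  symm := ⟨fun _ _ h => ⟨h.1.symm, h.2.2, h.2.1⟩⟩
  loopless := ⟨fun _ h => h.1 rfl⟩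

/-- the table is the table of closed neighbourhoods of a graph on `n` vertices -/
structure Good (n : ℕ) (N : List ℕ) : Prop where
  length : N.length = n
  lt : ∀ m ∈ N, m < 2 ^ n
  self : ∀ u < n, (N.getD u 0).testBit u = true
  symm : ∀ u < n, ∀ v < n, (N.getD u 0).testBit v = (N.getD v 0).testBit u

variable {n : ℕ} {N : List ℕ}

theorem Good.nb (h : Good n N) (u v : Fin n) :
    (N.getD u 0).testBit v = true ↔ (u = v ∨ (ofTable n N).Adj u v) := by
  constructor
  · intro huv
    by_cases e : u = v
    · exact Or.inl e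
    · exact Or.inr ⟨e, huv, by rw [← h.symm u u.2 v v.2]; exact huv⟩
  · rintro (rfl | huv)
    · exact h.self u u.2
    · exact huv.2.1

/-- the set `S` contains all vertices with bit in `I` and none with bit in `O` -/
structure Agree (S : Finset (Fin n)) (I O : ℕ) : Prop where
  inn : ∀ i : Fin n, I.testBit i = true → i ∈ S
  out : ∀ i : Fin n, O.testBit i = true → i ∉ S

/-- pass the value of a number to a test -/
def force (f : ℕ → Bool) : ℕ → Bool
  | 0 => f 0
  | n + 1 => f (n + 1)

theorem force_eq (f : ℕ → Bool) (n : ℕ) : force f n = f n := by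
  cases n <;> rfl

/-- exhaustive search with pruning: all extensions of `(I, O)` are excluded -/
def search (prune : ℕ → ℕ → ℕ → ℕ → Bool) : List ℕ → ℕ → ℕ → ℕ → ℕ → Bool
  | [], I, O, c, r => prune I O c r
  | v :: vs, I, O, c, r =>
    prune I O c r ||
      (force (fun J => search prune vs J O (c + 1) (r - 1)) (Nat.lor I (Nat.pow 2 v)) &&
        force (fun J => search prune vs I J c (r - 1)) (Nat.lor O (Nat.pow 2 v)))

theorem testBit_lor_pow (I v i : ℕ) :
    (Nat.lor I (Nat.pow 2 v)).testBit i = (I.testBit i || decide (v = i)) := by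
  change (I ||| 2 ^ v).testBit i = _
  rw [Nat.testBit_or, Nat.testBit_two_pow]

theorem search_sound {prune : ℕ → ℕ → ℕ → ℕ → Bool} {P : Finset (Fin n) → Prop}
    (hp : ∀ (S : Finset (Fin n)) (I O c r : ℕ), Agree S I O → c ≤ S.card → S.card ≤ c + r →
      prune I O c r = true → ¬ P S) :
    ∀ (L : List (Fin n)) (S : Finset (Fin n)) (I O c r : ℕ), Agree S I O → r = L.length →
      S.card = c + (L.filter (fun x => decide (x ∈ S))).length →
      search prune (L.map Fin.val) I O c r = true → ¬ P S := by
  intro L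
  induction L with
  | nil =>
    intro S I O c r hA hr hc hs
    rw [List.map_nil, search] at hs
    simp only [List.filter_nil, List.length_nil] at hc hr
    exact hp S I O c r hA (by omega) (by omega) hs
  | cons v L ih =>
    intro S I O c r hA hr hc hs
    rw [List.map_cons, search, Bool.or_eq_true, Bool.and_eq_true, force_eq, force_eq] at hs
    rw [List.length_cons] at hr
    rcases hs with hs | ⟨h1, h2⟩
    · refine hp S I O c r hA (by omega) ?_ hs
      have := List.length_filter_le (fun x => decide (x ∈ S)) (v :: L)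
      rw [List.length_cons] at this
      omega
    · by_cases hv : v ∈ S
      · refine ih S _ O (c + 1) (r - 1) ⟨fun i hi => ?_, hA.out⟩ (by omega) ?_ h1
        · rw [testBit_lor_pow, Bool.or_eq_true, decide_eq_true_eq] at hi
          rcases hi with hi | hi
          · exact hA.inn i hi
          · rw [← Fin.ext hi]
            exact hv
        · rw [List.filter_cons, decide_eq_true hv, if_pos rfl, List.length_cons] at hc
          omega
      · refine ih S I _ c (r - 1) ⟨hA.inn, fun i hi => ?_⟩ (by omega) ?_ h2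
        · rw [testBit_lor_pow, Bool.or_eq_true, decide_eq_true_eq] at hi
          rcases hi with hi | hi
          · exact hA.out i hi
          · rw [← Fin.ext hi]
            exact hv
        · rw [List.filter_cons, decide_eq_false hv, if_neg (by simp)] at hc
          exact hc

theorem search_top {prune : ℕ → ℕ → ℕ → ℕ → Bool} {P : Finset (Fin n) → Prop}
    (hp : ∀ (S : Finset (Fin n)) (I O c r : ℕ), Agree S I O → c ≤ S.card → S.card ≤ c + r →
      prune I O c r = true → ¬ P S)
    (L : List (Fin n)) (hL : L.Nodup) (hall : ∀ i, i ∈ L)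
    (hs : search prune (L.map Fin.val) 0 0 0 L.length = true) (S : Finset (Fin n)) : ¬ P S := by
  refine search_sound hp L S 0 0 0 L.length ⟨fun i hi => ?_, fun i hi => ?_⟩ rfl ?_ hs
  · simp at hi
  · simp at hi
  · rw [zero_add]
    have h1 : (L.filter (fun x => decide (x ∈ S))).toFinset = S := by
      ext x
      simp [hall x]
    conv_lhs => rw [← h1]
    exact List.toFinset_card_of_nodup (hL.filter _)

/-! ## Tests -/

/-- `f k m` for some entry `m` of the list, at position `k` (counted from the given number) -/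
def anyV (f : ℕ → ℕ → Bool) : ℕ → List ℕ → Bool
  | _, [] => false
  | k, m :: ms => f k m || anyV f (k + 1) ms

theorem anyV_spec {f : ℕ → ℕ → Bool} {k : ℕ} {L : List ℕ} (h : anyV f k L = true) :
    ∃ j < L.length, f (k + j) (L.getD j 0) = true := by
  induction L generalizing k with
  | nil => simp [anyV] at h
  | cons m ms ih =>
    rw [anyV, Bool.or_eq_true] at h
    rcases h with h | h
    · exact ⟨0, by simp, by simpa using h⟩
    · obtain ⟨j, hj, hf⟩ := ih h
      refine ⟨j + 1, by simpa using hj, ?_⟩
      rw [List.getD_cons_succ, show k + (j + 1) = k + 1 + j by omega]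
      exact hf

/-- some vertex can no longer be dominated -/
def tDom (N : List ℕ) (O : ℕ) : Bool := anyV (fun _ m => Nat.beq (Nat.land m O) m) 0 N

/-- two chosen vertices are adjacent -/
def tInd (N : List ℕ) (I : ℕ) : Bool :=
  anyV (fun v m => Nat.testBit I v && !(Nat.beq (Nat.land m I) (Nat.pow 2 v))) 0 N

/-- some chosen vertex has no private neighbour any more -/
def tIrr (N : List ℕ) (I : ℕ) : Bool :=
  anyV (fun v _ => Nat.testBit I v &&
    !(anyV (fun _ m => Nat.beq (Nat.land m I) (Nat.pow 2 v)) 0 N)) 0 N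

theorem anyV_of {f : ℕ → ℕ → Bool} {k : ℕ} {L : List ℕ} {j : ℕ} (hj : j < L.length)
    (h : f (k + j) (L.getD j 0) = true) : anyV f k L = true := by
  induction L generalizing k j with
  | nil => simp at hj
  | cons m ms ih =>
    rw [anyV, Bool.or_eq_true]
    cases j with
    | zero => exact Or.inl (by simpa using h)
    | succ j =>
      refine Or.inr (ih (j := j) (by simpa using hj) ?_)
      rw [List.getD_cons_succ, show k + (j + 1) = k + 1 + j by omega] at h
      exact h

theorem tDom_sound (hg : Good n N) {S : Finset (Fin n)} {I O : ℕ} (hA : Agree S I O)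
    (h : tDom N O = true) : ¬ Dominating (ofTable n N) S := by
  obtain ⟨j, hj, hf⟩ := anyV_spec h
  rw [hg.length] at hj
  have hf' : N.getD j 0 &&& O = N.getD j 0 := Nat.eq_of_beq_eq_true hf
  intro hd
  obtain ⟨v, hv, hvw⟩ := hd ⟨j, hj⟩
  have h1 : (N.getD v 0).testBit j = true := (hg.nb v ⟨j, hj⟩).2 hvw
  rw [hg.symm v v.2 j hj] at h1
  rw [← hf', Nat.testBit_and, Bool.and_eq_true] at h1
  exact hA.out v h1.2 hv

/-- if the number `x` has bit `v` but is not `2 ^ v` then it has another bit -/
theorem other_bit {x v : ℕ} (hv : x.testBit v = true) (hx : x ≠ 2 ^ v) :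
    ∃ u, u ≠ v ∧ x.testBit u = true := by
  by_contra hcon
  push Not at hcon
  apply hx
  apply Nat.eq_of_testBit_eq
  intro i
  rw [Nat.testBit_two_pow]
  by_cases hi : v = i
  · subst hi
    simpa using hv
  · rw [decide_eq_false hi]
    have := hcon i (Ne.symm hi)
    simpa using this

theorem getD_lt (hg : Good n N) (j : ℕ) (hj : j < n) : N.getD j 0 < 2 ^ n := by
  have hj' : j < N.length := by rw [hg.length]; exact hj
  rw [List.getD_eq_getElem _ _ hj']
  exact hg.lt _ (List.getElem_mem hj')

theorem lt_of_testBit (hg : Good n N) {j u : ℕ} (hj : j < n)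
    (h : (N.getD j 0).testBit u = true) : u < n := by
  by_contra hu
  have h1 : N.getD j 0 < 2 ^ u := (getD_lt hg j hj).trans_le (Nat.pow_le_pow_right (by norm_num)
    (by omega))
  rw [Nat.testBit_lt_two_pow h1] at h
  exact absurd h (by simp)

theorem beq_false {a b : ℕ} (h : (!(Nat.beq a b)) = true) : a ≠ b := by
  rintro rfl
  rw [Nat.beq_refl] at h
  exact absurd h (by simp)

theorem tInd_sound (hg : Good n N) {S : Finset (Fin n)} {I O : ℕ} (hA : Agree S I O)
    (h : tInd N I = true) : ¬ Indep (ofTable n N) S := by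
  obtain ⟨j, hj, hf⟩ := anyV_spec h
  rw [hg.length] at hj
  rw [zero_add, Bool.and_eq_true] at hf
  obtain ⟨h1, h2⟩ := hf
  have h3 : N.getD j 0 &&& I ≠ 2 ^ j := beq_false h2
  have h4 : (N.getD j 0 &&& I).testBit j = true := by
    rw [Nat.testBit_and, hg.self j hj, h1]
    rfl
  obtain ⟨u, hu, hub⟩ := other_bit h4 h3
  rw [Nat.testBit_and, Bool.and_eq_true] at hub
  have hun : u < n := lt_of_testBit hg hj hub.1
  intro hi
  have h5 := (hg.nb ⟨j, hj⟩ ⟨u, hun⟩).1 hub.1
  rcases h5 with h5 | h5
  · exact hu (congrArg Fin.val h5).symm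
  · exact hi _ (hA.inn ⟨j, hj⟩ h1) _ (hA.inn ⟨u, hun⟩ hub.2) h5

theorem tIrr_sound (hg : Good n N) {S : Finset (Fin n)} {I O : ℕ} (hA : Agree S I O)
    (h : tIrr N I = true) : ¬ Irredundant (ofTable n N) S := by
  obtain ⟨j, hj, hf⟩ := anyV_spec h
  rw [hg.length] at hj
  rw [zero_add, Bool.and_eq_true] at hf
  obtain ⟨h1, h2⟩ := hf
  intro hi
  obtain ⟨w, hw, hn⟩ := hi ⟨j, hj⟩ (hA.inn ⟨j, hj⟩ h1)
  have hjw := (hg.nb ⟨j, hj⟩ w).2 hw
  have hwj : (N.getD w 0).testBit j = true := by
    rw [← hg.symm j hj w w.2]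
    exact hjw
  by_cases h3 : N.getD w 0 &&& I = 2 ^ j
  · have : anyV (fun _ m => Nat.beq (Nat.land m I) (Nat.pow 2 j)) 0 N = true := by
      apply anyV_of (j := w) (by rw [hg.length]; exact w.2)
      rw [Nat.beq_eq]
      exact h3
    rw [this] at h2
    exact absurd h2 (by simp)
  · have h4 : (N.getD w 0 &&& I).testBit j = true := by
      rw [Nat.testBit_and, hwj, h1]
      rfl
    obtain ⟨u, hu, hub⟩ := other_bit h4 h3
    rw [Nat.testBit_and, Bool.and_eq_true] at hub
    have hun : u < n := lt_of_testBit hg w.2 hub.1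
    apply hn
    refine ⟨⟨u, hun⟩, Finset.mem_erase.2 ⟨fun e => hu (congrArg Fin.val e),
      hA.inn ⟨u, hun⟩ hub.2⟩, ?_⟩
    apply (hg.nb ⟨u, hun⟩ w).1
    rw [hg.symm u hun w w.2]
    exact hub.1

end Pool.Agent.R798.Chain
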